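import Mathlib
import Pool.Agent.Lib.MP_1f0029_co.Final

set_option autoImplicit false

namespace Pool.Agent.Results.MP_1f0029_co.ExplicitCounterexample

open Finset

/-- The graph on the vertices `0, …, 15` in which every two distinct vertices are adjacent except
the sixteen pairs `{3,4}`, `{3,6}`, `{4,6}`, `{6,0}`, `{6,1}`, `{4,5}`, `{5,2}`, `{3,7}` and
`{7,8}`, `{7,9}`, …, `{7,15}`. -/
def witness : SimpleGraph (Fin 16) :=
  (SimpleGraph.fromEdgeSet
    ({s(3, 4), s(3, 6), s(4, 6), s(6, 0), s(6, 1), s(4, 5), s(5, 2), s(3, 7),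
      s(7, 8), s(7, 9), s(7, 10), s(7, 11), s(7, 12), s(7, 13), s(7, 14), s(7, 15)} :
      Set (Sym2 (Fin 16))))ᶜ

lemma witness_eq : witness = (Lib.MP_1f0029_co.F)ᶜ := by
  unfold witness
  congr 1
  ext a b
  rw [SimpleGraph.fromEdgeSet_adj]
  simp only [Set.mem_insert_iff, Set.mem_singleton_iff]
  revert a b
  decide +kernel

/-- **A finite simple graph on 16 vertices with exactly 8983 cliques (empty set and singletons
counted), while no partially ordered set with 16 elements, in any universe, has exactly 8983
antichains (empty set and singletons counted).** -/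
theorem result.{u} :
    {s : Finset (Fin 16) | witness.IsClique (s : Set (Fin 16))}.ncard = 8983 ∧
    ∀ (P : Type u) [Fintype P] [PartialOrder P], Fintype.card P = 16 →
      {s : Finset P | IsAntichain (· ≤ ·) (s : Set P)}.ncard ≠ 8983 := by
  refine ⟨by rw [witness_eq]; exact Lib.MP_1f0029_co.cliques_card, ?_⟩
  intro P _ _ hcard hn
  have e : P ≃ Fin 16 := Fintype.equivFinOfCardEq hcard
  let _ : PartialOrder (Fin 16) := PartialOrder.lift e.symm e.symm.injective
  refine Lib.MP_1f0029_co.no_poset (Fin 16) (by simp) ?_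
  rw [← hn]
  have hinj : Function.Injective (fun s : Finset (Fin 16) => s.map e.symm.toEmbedding) :=
    Finset.map_injective _
  rw [← Set.ncard_image_of_injective _ hinj]
  congr 1
  ext s
  simp only [Set.mem_image, Set.mem_ofPred_eq]
  constructor
  · rintro ⟨t, ht, rfl⟩
    intro x hx y hy hne hle
    rw [Finset.coe_map] at hx hy
    obtain ⟨a, ha, rfl⟩ := hx
    obtain ⟨b, hb, rfl⟩ := hy
    exact ht ha hb (fun h => hne (by rw [h])) hle
  · intro hs
    refine ⟨s.map e.toEmbedding, ?_, ?_⟩
    · intro a ha b hb hne hle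
      rw [Finset.coe_map] at ha hb
      obtain ⟨x, hx, rfl⟩ := ha
      obtain ⟨y, hy, rfl⟩ := hb
      refine hs hx hy (fun h => hne (by rw [h])) ?_
      have : e.symm (e x) ≤ e.symm (e y) := hle
      simpa using this
    · ext x
      simp

end Pool.Agent.Results.MP_1f0029_co.ExplicitCounterexample
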